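import Pool.Agent.H65.Car.Defs

set_option autoImplicit false

open Finset Filter Topology

namespace Pool.Agent.H65.Car

theorem carousel_arc_iff (n : ℕ) (x y : Fin (2 * n + 1)) :
    (carousel n).arc x y ↔ ((x : ℕ) < y ∧ (y : ℕ) ≤ x + n) ∨ (y : ℕ) + n + 1 ≤ x := by
  obtain ⟨x, hx⟩ := x
  obtain ⟨y, hy⟩ := y
  show (∃ i : ℕ, 1 ≤ i ∧ i ≤ n ∧ y = (x + i) % (2 * n + 1)) ↔ _
  dsimp only
  constructor
  · rintro ⟨i, h1, h2, h3⟩
    by_cases h : x + i < 2 * n + 1
    · rw [Nat.mod_eq_of_lt h] at h3; omega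
    · rw [Nat.mod_eq_sub_mod (by omega), Nat.mod_eq_of_lt (by omega)] at h3; omega
  · rintro (⟨h1, h2⟩ | h1)
    · refine ⟨y - x, by omega, by omega, ?_⟩
      rw [Nat.mod_eq_of_lt (by omega)]; omega
    · refine ⟨y + (2 * n + 1) - x, by omega, by omega, ?_⟩
      have h2 : x + (y + (2 * n + 1) - x) = y + (2 * n + 1) := by omega
      rw [h2, Nat.add_mod_right, Nat.mod_eq_of_lt hy]

theorem carousel_arc_iff_sub (n : ℕ) (x y : Fin (2 * n + 1)) :
    (carousel n).arc x y ↔ 1 ≤ ((y - x : Fin (2 * n + 1)) : ℕ) ∧ ((y - x : Fin (2 * n + 1)) : ℕ) ≤ n := by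
  rw [carousel_arc_iff, Fin.val_sub]
  obtain ⟨x, hx⟩ := x
  obtain ⟨y, hy⟩ := y
  dsimp only
  by_cases h : x ≤ y
  · have h1 : 2 * n + 1 - x + y = (y - x) + (2 * n + 1) := by omega
    rw [h1, Nat.add_mod_right, Nat.mod_eq_of_lt (by omega)]
    omega
  · rw [Nat.mod_eq_of_lt (by omega)]
    omega

open Classical in
/-- The skew matrix of a tournament. -/
noncomputable def mat {k : ℕ} (T : Tournament k) (x y : Fin k) : ℤ :=
  if T.arc x y then 1 else if T.arc y x then -1 else 0

theorem Tournament.not_both {k : ℕ} (T : Tournament k) {x y : Fin k} (h : T.arc x y) : ¬ T.arc y x := by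
  intro h'
  by_cases hxy : x = y
  · subst hxy; exact T.irrefl x h
  · exact (T.exactlyOne x y hxy).mp h h'

theorem mat_skew {k : ℕ} (T : Tournament k) (x y : Fin k) : mat T x y = - mat T y x := by
  unfold mat
  by_cases h : T.arc x y
  · have h' := T.not_both h
    simp [h, h']
  · by_cases h' : T.arc y x <;> simp [h, h']

theorem mat_pm {k : ℕ} (T : Tournament k) (x y : Fin k) (hxy : x ≠ y) : mat T x y = 1 ∨ mat T x y = -1 := by
  unfold mat
  by_cases h : T.arc x y
  · left; simp [h]
  · right
    have h' : T.arc y x := by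
      by_contra h'
      exact h ((T.exactlyOne x y hxy).mpr h')
    simp [h, h']

theorem mat_eq_one_iff {k : ℕ} (T : Tournament k) (x y : Fin k) : mat T x y = 1 ↔ T.arc x y := by
  unfold mat
  by_cases h : T.arc x y
  · simp [h]
  · by_cases h' : T.arc y x <;> simp [h, h']

/-- Arc preserving maps preserve the matrices. -/
theorem mat_map {k n : ℕ} (T : Tournament k) (U : Tournament n) (f : Fin k → Fin n)
    (h : ∀ x y, T.arc x y ↔ U.arc (f x) (f y)) (x y : Fin k) : mat T x y = mat U (f x) (f y) := by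
  classical
  unfold mat
  simp only [propext (h x y), propext (h y x)]

/-- The carousel tournament is regular. -/
theorem carousel_regular (n : ℕ) (y : Fin (2 * n + 1)) : ∑ x, mat (carousel n) x y = 0 := by
  have h1 : ∀ x, mat (carousel n) ((y + y) - x) y = - mat (carousel n) x y := by
    intro x
    rw [← mat_skew (carousel n) y x]
    have h2 : (carousel n).arc ((y + y) - x) y ↔ (carousel n).arc y x := by
      rw [carousel_arc_iff_sub, carousel_arc_iff_sub]
      have : y - ((y + y) - x) = x - y := by abel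
      rw [this]
    have h3 : (carousel n).arc y ((y + y) - x) ↔ (carousel n).arc x y := by
      rw [carousel_arc_iff_sub, carousel_arc_iff_sub]
      have : ((y + y) - x) - y = y - x := by abel
      rw [this]
    classical
    unfold mat
    simp only [propext h2, propext h3]
  have h4 : ∑ x, mat (carousel n) x y = ∑ x, mat (carousel n) ((y + y) - x) y :=
    ((Equiv.subLeft (y + y)).sum_comp (fun x => mat (carousel n) x y)).symm
  have h5 : ∑ x, mat (carousel n) ((y + y) - x) y = - ∑ x, mat (carousel n) x y := by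
    rw [← sum_neg_distrib]
    exact sum_congr rfl fun x _ => h1 x
  omega

end Pool.Agent.H65.Car
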