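import Pool.Agent.H65.Car.Upper

/-!
# The limit of the carousel tournaments
-/

set_option autoImplicit false

open Finset Filter Topology

namespace Pool.Agent.H65.Car

/-- The vertices `j` and `j + m + 1` of the carousel tournament. -/
def blk (m : ℕ) (j : Fin m) (b : Bool) : Fin (2 * m + 1) :=
  ⟨(j : ℕ) + (if b then m + 1 else 0), by have := j.2; split_ifs <;> omega⟩

theorem blk_inj {m : ℕ} {j j' : Fin m} {b b' : Bool} (h : blk m j b = blk m j' b') : j = j' ∧ b = b' := by
  have h1 := congrArg Fin.val h
  have h2 := j.2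
  have h3 := j'.2
  simp only [blk] at h1
  cases b <;> cases b' <;> simp only [Bool.false_eq_true, if_false, if_true] at h1
  · exact ⟨Fin.ext (by omega), rfl⟩
  · omega
  · omega
  · exact ⟨Fin.ext (by omega), rfl⟩

theorem blk_arc {m : ℕ} {j j' : Fin m} {b b' : Bool} (h : j < j') :
    (carousel m).arc (blk m j b) (blk m j' b') ↔ b = b' := by
  rw [carousel_arc_iff]
  have h1 : (j : ℕ) < j' := h
  have h2 := j.2
  have h3 := j'.2
  simp only [blk]
  cases b <;> cases b' <;> simp only [Bool.false_eq_true, if_false, if_true] <;>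
    simp <;> omega

theorem blk_arc' {m : ℕ} {j j' : Fin m} {b b' : Bool} (h : j < j') :
    (carousel m).arc (blk m j' b') (blk m j b) ↔ b' ≠ b := by
  rw [carousel_arc_iff]
  have h1 : (j : ℕ) < j' := h
  have h2 := j.2
  have h3 := j'.2
  simp only [blk]
  cases b <;> cases b' <;> simp only [Bool.false_eq_true, if_false, if_true] <;>
    simp <;> omega

/-- The tournament of a sign pattern. -/
def pat {k : ℕ} (ε : Fin k → Bool) : Tournament k where
  arc a b := (a < b ∧ ε a = ε b) ∨ (b < a ∧ ε a ≠ ε b)
  irrefl := fun x h => by rcases h with h | h <;> exact absurd h.1 (lt_irrefl x)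
  exactlyOne := fun x y hxy => by
    rcases lt_or_gt_of_ne hxy with h | h
    · by_cases h1 : ε x = ε y
      · simp [h, h1, not_lt.mpr h.le]
      · have h2 : ¬ ε y = ε x := fun h => h1 h.symm
        simp [h, h1, h2, not_lt.mpr h.le]
    · by_cases h1 : ε x = ε y
      · simp [h, h1, not_lt.mpr h.le]
      · have h2 : ¬ ε y = ε x := fun h => h1 h.symm
        simp [h, h1, h2, not_lt.mpr h.le]

/-- Isomorphic tournaments. -/
def Iso {k : ℕ} (T U : Tournament k) : Prop :=
  ∃ f : Fin k → Fin k, Function.Injective f ∧ ∀ x y, T.arc x y ↔ U.arc (f x) (f y)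

open Classical in
/-- The sign patterns which give `T`. -/
noncomputable def pats {k : ℕ} (T : Tournament k) : Finset (Fin k → Bool) :=
  univ.filter fun ε => Iso T (pat ε)

variable {m k : ℕ}

/-- A transversal of the pairs. -/
def trv (p : {J : Finset (Fin m) // J.card = k} × (Fin k → Bool)) (i : Fin k) : Fin (2 * m + 1) :=
  blk m (p.1.1.orderEmbOfFin p.1.2 i) (p.2 i)

theorem trv_injective (p : {J : Finset (Fin m) // J.card = k} × (Fin k → Bool)) :
    Function.Injective (trv p) := by
  intro a b h
  exact (p.1.1.orderEmbOfFin p.1.2).injective (blk_inj h).1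

theorem trv_arc (p : {J : Finset (Fin m) // J.card = k} × (Fin k → Bool)) (a b : Fin k) :
    (pat p.2).arc a b ↔ (carousel m).arc (trv p a) (trv p b) := by
  show ((a < b ∧ p.2 a = p.2 b) ∨ (b < a ∧ p.2 a ≠ p.2 b)) ↔ _
  rcases lt_trichotomy a b with h | h | h
  · have h1 : p.1.1.orderEmbOfFin p.1.2 a < p.1.1.orderEmbOfFin p.1.2 b :=
      (p.1.1.orderEmbOfFin p.1.2).strictMono h
    unfold trv
    rw [blk_arc h1]
    simp [h, not_lt.mpr h.le]
  · subst h
    have h1 := (carousel m).irrefl (trv p a)
    simp [h1]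
  · have h1 : p.1.1.orderEmbOfFin p.1.2 b < p.1.1.orderEmbOfFin p.1.2 a :=
      (p.1.1.orderEmbOfFin p.1.2).strictMono h
    unfold trv
    rw [blk_arc' h1]
    simp [h, not_lt.mpr h.le]

theorem mem_copies_iff {k n : ℕ} (T : Tournament k) (U : Tournament n) (S : Finset (Fin n)) :
    S ∈ copies T U ↔ ∃ f : Fin k → Fin n, Function.Injective f ∧ univ.image f = S ∧
      ∀ x y, T.arc x y ↔ U.arc (f x) (f y) := by
  simp [copies]

/-- Copies inside transversals. -/
theorem image_trv_mem_iff (T : Tournament k) (p : {J : Finset (Fin m) // J.card = k} × (Fin k → Bool)) :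
    univ.image (trv p) ∈ copies T (carousel m) ↔ Iso T (pat p.2) := by
  rw [mem_copies_iff]
  constructor
  · rintro ⟨f, hf, him, harc⟩
    have h1 : ∀ x, ∃ y, trv p y = f x := by
      intro x
      have h2 : f x ∈ univ.image (trv p) := by rw [← him]; exact mem_image_of_mem _ (mem_univ _)
      obtain ⟨y, _, hy⟩ := mem_image.mp h2
      exact ⟨y, hy⟩
    choose h hh using h1
    refine ⟨h, fun a b hab => hf (by rw [← hh a, ← hh b, hab]), fun x y => ?_⟩
    rw [harc x y, ← hh x, ← hh y, trv_arc]
  · rintro ⟨h, hinj, harc⟩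
    have hb : Function.Bijective h := Finite.injective_iff_bijective.mp hinj
    refine ⟨fun x => trv p (h x), (trv_injective p).comp hinj, ?_, fun x y => ?_⟩
    · ext v
      simp only [mem_image, mem_univ, true_and]
      constructor
      · rintro ⟨x, hx⟩; exact ⟨h x, hx⟩
      · rintro ⟨y, hy⟩
        obtain ⟨x, rfl⟩ := hb.2 y
        exact ⟨x, hy⟩
    · rw [harc x y, trv_arc]

theorem image_trv_injective : Function.Injective
    (fun p : {J : Finset (Fin m) // J.card = k} × (Fin k → Bool) => univ.image (trv p)) := by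
  rintro ⟨⟨J, hJ⟩, ε⟩ ⟨⟨J', hJ'⟩, ε'⟩ h
  simp only at h
  have key : ∀ (J J' : Finset (Fin m)) (hJ : J.card = k) (hJ' : J'.card = k) (ε ε' : Fin k → Bool),
      univ.image (trv (⟨⟨J, hJ⟩, ε⟩ : {J : Finset (Fin m) // J.card = k} × (Fin k → Bool))) =
      univ.image (trv (⟨⟨J', hJ'⟩, ε'⟩ : {J : Finset (Fin m) // J.card = k} × (Fin k → Bool))) →
      ∀ i, ∃ i', J.orderEmbOfFin hJ i = J'.orderEmbOfFin hJ' i' ∧ ε i = ε' i' := by
    intro J J' hJ hJ' ε ε' h i
    have h2 : trv (⟨⟨J, hJ⟩, ε⟩ : {J : Finset (Fin m) // J.card = k} × (Fin k → Bool)) i ∈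
        univ.image (trv (⟨⟨J', hJ'⟩, ε'⟩ : {J : Finset (Fin m) // J.card = k} × (Fin k → Bool))) := by
      rw [← h]; exact mem_image_of_mem _ (mem_univ _)
    obtain ⟨i', _, hi'⟩ := mem_image.mp h2
    have h3 := blk_inj hi'
    exact ⟨i', h3.1.symm, h3.2.symm⟩
  have sub : ∀ (J J' : Finset (Fin m)) (hJ : J.card = k) (hJ' : J'.card = k) (ε ε' : Fin k → Bool),
      univ.image (trv (⟨⟨J, hJ⟩, ε⟩ : {J : Finset (Fin m) // J.card = k} × (Fin k → Bool))) =
      univ.image (trv (⟨⟨J', hJ'⟩, ε'⟩ : {J : Finset (Fin m) // J.card = k} × (Fin k → Bool))) →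
      J ⊆ J' := by
    intro J J' hJ hJ' ε ε' h j hj
    have h1 : j ∈ Set.range (J.orderEmbOfFin hJ) := by rw [range_orderEmbOfFin]; exact hj
    obtain ⟨i, rfl⟩ := h1
    obtain ⟨i', hi', _⟩ := key J J' hJ hJ' ε ε' h i
    rw [hi']
    exact orderEmbOfFin_mem _ _ _
  have hJJ : J = J' := Subset.antisymm (sub J J' hJ hJ' ε ε' h) (sub J' J hJ' hJ ε' ε h.symm)
  subst hJJ
  have hε : ε = ε' := by
    funext i
    obtain ⟨i', h1, h2⟩ := key J J hJ hJ' ε ε' h i
    have h3 : i = i' := (J.orderEmbOfFin hJ).injective h1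
    rw [h2, h3]
  rw [hε]

theorem card_transversals : ((univ : Finset ({J : Finset (Fin m) // J.card = k} × (Fin k → Bool))).image
    (fun p => univ.image (trv p))).card = m.choose k * 2 ^ k := by
  rw [card_image_of_injective _ image_trv_injective, card_univ, Fintype.card_prod,
    Fintype.card_finset_len, Fintype.card_fin, Fintype.card_fun, Fintype.card_bool, Fintype.card_fin]

open Classical in
theorem card_good (T : Tournament k) :
    ((univ : Finset ({J : Finset (Fin m) // J.card = k} × (Fin k → Bool))).filter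
      fun p => Iso T (pat p.2)).card = m.choose k * (pats T).card := by
  have h1 : ((univ : Finset ({J : Finset (Fin m) // J.card = k} × (Fin k → Bool))).filter
      fun p => Iso T (pat p.2)) = (univ : Finset {J : Finset (Fin m) // J.card = k}) ×ˢ pats T := by
    ext p
    simp [pats]
  rw [h1, card_product, card_univ, Fintype.card_finset_len, Fintype.card_fin]

theorem copies_subset {k n : ℕ} (T : Tournament k) (U : Tournament n) :
    copies T U ⊆ powersetCard k univ := by
  intro S hS
  obtain ⟨f, hf, him, _⟩ := (mem_copies_iff T U S).mp hS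
  rw [mem_powersetCard]
  refine ⟨subset_univ _, ?_⟩
  rw [← him, card_image_of_injective _ hf, card_univ, Fintype.card_fin]

theorem lower_copies (T : Tournament k) :
    m.choose k * (pats T).card ≤ (copies T (carousel m)).card := by
  classical
  rw [← card_good (m := m) T]
  refine card_le_card_of_injOn (fun p => univ.image (trv p)) ?_ ?_
  · intro p hp
    rw [mem_coe, mem_filter] at hp
    exact (image_trv_mem_iff T p).mpr hp.2
  · exact fun a _ b _ h => image_trv_injective h

theorem upper_copies (T : Tournament k) :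
    (copies T (carousel m)).card + m.choose k * 2 ^ k ≤
      m.choose k * (pats T).card + (2 * m + 1).choose k := by
  classical
  set I := ((univ : Finset ({J : Finset (Fin m) // J.card = k} × (Fin k → Bool))).image
    (fun p => univ.image (trv p))) with hI
  have h1 : (copies T (carousel m)) ⊆
      (((univ : Finset ({J : Finset (Fin m) // J.card = k} × (Fin k → Bool))).filter
      fun p => Iso T (pat p.2)).image (fun p => univ.image (trv p))) ∪ (powersetCard k univ \ I) := by
    intro S hS
    rw [mem_union]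
    by_cases h : S ∈ I
    · left
      rw [hI, mem_image] at h
      obtain ⟨p, _, rfl⟩ := h
      exact mem_image_of_mem _ (mem_filter.mpr ⟨mem_univ _, (image_trv_mem_iff T p).mp hS⟩)
    · right
      exact mem_sdiff.mpr ⟨copies_subset _ _ hS, h⟩
  have h2 := (card_le_card h1).trans (card_union_le _ _)
  have h3 : (((univ : Finset ({J : Finset (Fin m) // J.card = k} × (Fin k → Bool))).filter
      fun p => Iso T (pat p.2)).image (fun p => univ.image (trv p))).card ≤ m.choose k * (pats T).card := by
    refine card_image_le.trans ?_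
    rw [card_good]
  have h4 : (powersetCard k (univ : Finset (Fin (2 * m + 1))) \ I).card + m.choose k * 2 ^ k =
      (2 * m + 1).choose k := by
    have h5 : I ⊆ powersetCard k univ := by
      intro S hS
      rw [hI, mem_image] at hS
      obtain ⟨p, _, rfl⟩ := hS
      rw [mem_powersetCard]
      refine ⟨subset_univ _, ?_⟩
      rw [card_image_of_injective _ (trv_injective p), card_univ, Fintype.card_fin]
    have h6 := card_sdiff_add_card_eq_card h5
    rw [card_powersetCard, card_univ, Fintype.card_fin, hI, card_transversals] at h6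
    exact h6
  omega

end Pool.Agent.H65.Car
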