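import Mathlib

/-!
# Densities of tournaments, limits, carousel tournaments
-/

set_option autoImplicit false

open Finset Filter Topology

namespace Pool.Agent.H65.Car

/-- A tournament with the vertex set `Fin k`; `arc x y` means that there is an arc from `x` to `y`. -/
structure Tournament (k : ℕ) where
  /-- the arcs -/
  arc : Fin k → Fin k → Prop
  /-- no loops -/
  irrefl : ∀ x, ¬ arc x x
  /-- exactly one arc between two different vertices -/
  exactlyOne : ∀ x y, x ≠ y → (arc x y ↔ ¬ arc y x)

open Classical in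
/-- The sets `S` of vertices of `U` which induce a subtournament isomorphic to `T`. -/
noncomputable def copies {k n : ℕ} (T : Tournament k) (U : Tournament n) : Finset (Finset (Fin n)) :=
  univ.filter fun S => ∃ f : Fin k → Fin n, Function.Injective f ∧ univ.image f = S ∧
    ∀ x y, T.arc x y ↔ U.arc (f x) (f y)

/-- The unlabelled induced density `p(T, U)`: the number of copies of `T` divided by `C(n, k)`. -/
noncomputable def density {k n : ℕ} (T : Tournament k) (U : Tournament n) : ℝ :=
  ((copies T U).card : ℝ) / (n.choose k : ℝ)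

/-- `φ` is the limit of a convergent sequence of tournaments: there are tournaments `U m` with
`N m` vertices, `N` strictly increasing, with `p(T, U m) → φ(T)` for every tournament `T`. -/
def IsLimit (φ : ∀ k : ℕ, Tournament k → ℝ) : Prop :=
  ∃ (N : ℕ → ℕ) (U : ∀ m, Tournament (N m)), StrictMono N ∧
    ∀ (k : ℕ) (T : Tournament k), Tendsto (fun m => density T (U m)) atTop (𝓝 (φ k T))

/-- The carousel tournament `R_{2n+1}`: the arcs are `x → (x + i) mod (2n+1)`, `i = 1, ..., n`. -/
def carousel (n : ℕ) : Tournament (2 * n + 1) where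
  arc x y := ∃ i : ℕ, 1 ≤ i ∧ i ≤ n ∧ (y : ℕ) = ((x : ℕ) + i) % (2 * n + 1)
  irrefl := by
    rintro ⟨x, hx⟩ ⟨i, h1, h2, h3⟩
    dsimp only at h3
    by_cases h : x + i < 2 * n + 1
    · rw [Nat.mod_eq_of_lt h] at h3; omega
    · rw [Nat.mod_eq_sub_mod (by omega), Nat.mod_eq_of_lt (by omega)] at h3; omega
  exactlyOne := by
    have key : ∀ x y : ℕ, x < 2 * n + 1 → y < 2 * n + 1 →
        ((∃ i : ℕ, 1 ≤ i ∧ i ≤ n ∧ y = (x + i) % (2 * n + 1)) ↔
          (x < y ∧ y ≤ x + n) ∨ y + n + 1 ≤ x) := by
      intro x y hx hy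
      constructor
      · rintro ⟨i, h1, h2, h3⟩
        by_cases h : x + i < 2 * n + 1
        · rw [Nat.mod_eq_of_lt h] at h3; omega
        · rw [Nat.mod_eq_sub_mod (by omega), Nat.mod_eq_of_lt (by omega)] at h3; omega
      · rintro (⟨h1, h2⟩ | h1)
        · refine ⟨y - x, by omega, by omega, ?_⟩
          rw [Nat.mod_eq_of_lt (by omega)]; omega
        · refine ⟨y + (2 * n + 1) - x, by omega, by omega, ?_⟩
          have h2 : x + (y + (2 * n + 1) - x) = y + (2 * n + 1) := by omega
          rw [h2, Nat.add_mod_right, Nat.mod_eq_of_lt hy]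
    rintro ⟨x, hx⟩ ⟨y, hy⟩ hne
    have hne' : x ≠ y := fun h => hne (by simp [h])
    simp only
    rw [key x y hx hy, key y x hy hx]
    omega

end Pool.Agent.H65.Car
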