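import Pool.Agent.H65.Car.CarLim

/-!
# The limit of the carousel tournaments: convergence and the value
-/

set_option autoImplicit false

open Finset Filter Topology

namespace Pool.Agent.H65.Car

theorem tendsto_choose_ratio (k : ℕ) :
    Tendsto (fun m : ℕ => (m.choose k : ℝ) / ((2 * m + 1).choose k : ℝ)) atTop (𝓝 ((1 / 2) ^ k)) := by
  have h1 := tendsto_ratio k
  have h2 : Tendsto (fun m : ℕ => 2 * m + 1) atTop atTop := by
    refine tendsto_atTop_mono (fun m => ?_) tendsto_id
    simp only [id]; omega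
  have h3 := h1.comp h2
  have h4 : Tendsto (fun m : ℕ => ((m : ℝ) / ((2 * m + 1 : ℕ) : ℝ)) ^ k) atTop (𝓝 ((1 / 2) ^ k)) := by
    refine Tendsto.pow ?_ k
    have h5 : Tendsto (fun m : ℕ => (1 : ℝ) / (2 + (m : ℝ)⁻¹)) atTop (𝓝 (1 / (2 + 0))) :=
      tendsto_const_nhds.div (tendsto_const_nhds.add tendsto_inv_atTop_nhds_zero_nat) (by norm_num)
    rw [add_zero] at h5
    refine h5.congr' ?_
    filter_upwards [eventually_gt_atTop 0] with m hm
    have hm' : (m : ℝ) ≠ 0 := by exact_mod_cast hm.ne'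
    push_cast
    field_simp
  have h6 := (h3.mul h4).div h1 one_ne_zero
  rw [one_mul, div_one] at h6
  refine h6.congr' ?_
  filter_upwards [eventually_ge_atTop (k + 1)] with m hm
  have hm' : (m : ℝ) ≠ 0 := by
    have : m ≠ 0 := by omega
    exact_mod_cast this
  have e1 : (m.descFactorial k : ℝ) = (k.factorial : ℝ) * (m.choose k : ℝ) := by
    rw [Nat.descFactorial_eq_factorial_mul_choose]; push_cast; ring
  have e2 : ((2 * m + 1).descFactorial k : ℝ) = (k.factorial : ℝ) * ((2 * m + 1).choose k : ℝ) := by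
    rw [Nat.descFactorial_eq_factorial_mul_choose]; push_cast; ring
  have hf : (k.factorial : ℝ) ≠ 0 := by exact_mod_cast (Nat.factorial_pos k).ne'
  have c1 : (m.choose k : ℝ) ≠ 0 := by exact_mod_cast (Nat.choose_pos (by omega)).ne'
  have c2 : ((2 * m + 1).choose k : ℝ) ≠ 0 := by exact_mod_cast (Nat.choose_pos (by omega)).ne'
  have c3 : ((2 * m + 1 : ℕ) : ℝ) ≠ 0 := by exact_mod_cast (by omega : 2 * m + 1 ≠ 0)
  simp only [Function.comp, Pi.div_apply]
  rw [e1, e2, div_pow]
  have c4 : ((2 * m + 1 : ℕ) : ℝ) ^ k ≠ 0 := pow_ne_zero _ c3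
  have c5 : (m : ℝ) ^ k ≠ 0 := pow_ne_zero _ hm'
  field_simp

/-- The limit of the carousel tournaments. -/
noncomputable def phiR (k : ℕ) (T : Tournament k) : ℝ := ((pats T).card : ℝ) / 2 ^ k

theorem tendsto_carousel (k : ℕ) (T : Tournament k) :
    Tendsto (fun m => density T (carousel m)) atTop (𝓝 (phiR k T)) := by
  have h1 := tendsto_choose_ratio k
  have hlow : Tendsto (fun m : ℕ => (m.choose k : ℝ) / ((2 * m + 1).choose k : ℝ) * ((pats T).card : ℝ))
      atTop (𝓝 (phiR k T)) := by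
    have := h1.mul_const ((pats T).card : ℝ)
    have h2 : (1 / 2 : ℝ) ^ k * ((pats T).card : ℝ) = phiR k T := by
      unfold phiR; rw [one_div, inv_pow]; field_simp
    rwa [h2] at this
  have hup : Tendsto (fun m : ℕ => (m.choose k : ℝ) / ((2 * m + 1).choose k : ℝ) * ((pats T).card : ℝ) +
      (1 - (m.choose k : ℝ) / ((2 * m + 1).choose k : ℝ) * 2 ^ k))
      atTop (𝓝 (phiR k T)) := by
    have h3 := hlow.add ((tendsto_const_nhds (x := (1 : ℝ))).sub (h1.mul_const ((2 : ℝ) ^ k)))
    have h4 : (1 / 2 : ℝ) ^ k * 2 ^ k = 1 := by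
      rw [← mul_pow]; norm_num
    rwa [h4, sub_self, add_zero] at h3
  refine tendsto_of_tendsto_of_tendsto_of_le_of_le' hlow hup ?_ ?_
  · filter_upwards with m
    unfold density
    rw [div_mul_eq_mul_div]
    refine div_le_div_of_nonneg_right ?_ (Nat.cast_nonneg _)
    exact_mod_cast lower_copies T
  · filter_upwards [eventually_ge_atTop k] with m hm
    unfold density
    have hc : (0 : ℝ) < ((2 * m + 1).choose k : ℝ) := by
      exact_mod_cast Nat.choose_pos (by omega)
    rw [div_le_iff₀ hc]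
    have h5 : ((copies T (carousel m)).card : ℝ) + (m.choose k : ℝ) * 2 ^ k ≤
      (m.choose k : ℝ) * ((pats T).card : ℝ) + ((2 * m + 1).choose k : ℝ) := by
      exact_mod_cast upper_copies (m := m) T
    have h6 : ((m.choose k : ℝ) / ((2 * m + 1).choose k : ℝ) * ((pats T).card : ℝ) +
      (1 - (m.choose k : ℝ) / ((2 * m + 1).choose k : ℝ) * 2 ^ k)) * ((2 * m + 1).choose k : ℝ) =
      (m.choose k : ℝ) * ((pats T).card : ℝ) + ((2 * m + 1).choose k : ℝ) - (m.choose k : ℝ) * 2 ^ k := by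
      field_simp
      ring
    rw [h6]; linarith

theorem isLimit_phiR : IsLimit phiR := by
  refine ⟨fun m => 2 * m + 1, carousel, fun a b h => ?_, tendsto_carousel⟩
  show 2 * a + 1 < 2 * b + 1
  omega

/-- The alternating pattern. -/
def alt (n : ℕ) (b : Bool) (i : Fin (2 * n + 1)) : Bool := xor b (decide ((i : ℕ) % 2 = 0))

theorem iso_alt (n : ℕ) (b : Bool) : Iso (carousel n) (pat (alt n b)) := by
  refine ⟨fun x => if h : (x : ℕ) ≤ n then ⟨2 * x, by omega⟩ else ⟨2 * x - (2 * n + 1), by have := x.2; omega⟩,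
    ?_, ?_⟩
  · intro x y h
    have hx := x.2
    have hy := y.2
    by_cases h1 : (x : ℕ) ≤ n <;> by_cases h2 : (y : ℕ) ≤ n <;>
      simp only [h1, h2, dif_pos, dif_neg, not_false_eq_true, Fin.mk.injEq] at h <;>
      exact Fin.ext (by omega)
  · intro x y
    have hx := x.2
    have hy := y.2
    rw [carousel_arc_iff]
    show _ ↔ ((_ < _ ∧ alt n b _ = alt n b _) ∨ (_ < _ ∧ alt n b _ ≠ alt n b _))
    have hb : ∀ i j : Fin (2 * n + 1), alt n b i = alt n b j ↔ ((i : ℕ) % 2 = (j : ℕ) % 2) := by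
      intro i j
      unfold alt
      rw [Bool.xor_right_inj]
      rw [decide_eq_decide]
      omega
    rw [ne_eq, hb]
    by_cases h1 : (x : ℕ) ≤ n <;> by_cases h2 : (y : ℕ) ≤ n <;>
      simp only [h1, h2, dif_pos, dif_neg, not_false_eq_true, Fin.lt_def] <;> omega

theorem two_le_pats (n : ℕ) : 2 ≤ (pats (carousel n)).card := by
  classical
  have h1 : ({alt n false, alt n true} : Finset (Fin (2 * n + 1) → Bool)) ⊆ pats (carousel n) := by
    intro ε hε
    rw [mem_insert, mem_singleton] at hε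
    rw [pats, mem_filter]
    rcases hε with rfl | rfl
    · exact ⟨mem_univ _, iso_alt n _⟩
    · exact ⟨mem_univ _, iso_alt n _⟩
  have h2 : alt n false ≠ alt n true := by
    intro h
    have := congrFun h 0
    simp [alt] at this
  have h3 := card_le_card h1
  rwa [card_pair h2] at h3

theorem phiR_carousel (n : ℕ) : phiR (2 * n + 1) (carousel n) = (1 / 4) ^ n := by
  refine le_antisymm (limit_le isLimit_phiR n) ?_
  unfold phiR
  have h1 : (2 : ℝ) ≤ ((pats (carousel n)).card : ℝ) := by exact_mod_cast two_le_pats n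
  have h2 : (2 : ℝ) ^ (2 * n + 1) = 2 * 4 ^ n := by
    rw [pow_succ, pow_mul]; norm_num; ring
  rw [le_div_iff₀ (by positivity), h2]
  have h3 : (1 / 4 : ℝ) ^ n * (2 * 4 ^ n) = 2 := by
    rw [one_div, inv_pow]; field_simp
  rw [h3]; exact h1

end Pool.Agent.H65.Car
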