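import Pool.Agent.H65.Car.Ker

/-!
# The bipartisan set of a tournament

Every nonempty finite set `T` of vertices of a tournament contains exactly one completely mixed set
`S` whose equalising weights beat all other vertices of `T` (Fisher and Ryan, Laffond, Laslier and
Le Breton).
-/

set_option autoImplicit false

open Finset

namespace Pool.Agent.H65.Car

variable {V : Type*} [DecidableEq V]

/-- `p` is positive on `S` and makes all vertices of `S` equal. -/
def Pos (A : V → V → ℤ) (S : Finset V) (p : V → ℝ) : Prop :=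
  (∀ m ∈ S, 0 < p m) ∧ ∀ u ∈ S, ∑ m ∈ S, p m * (A m u : ℝ) = 0

/-- Completely mixed sets. -/
def CM (A : V → V → ℤ) (S : Finset V) : Prop := S.Nonempty ∧ ∃ p, Pos A S p

open Classical in
/-- Equalising weights. -/
noncomputable def wt (A : V → V → ℤ) (S : Finset V) : V → ℝ :=
  if h : ∃ p, Pos A S p then h.choose else 0

/-- The advantage of the weights of `S` over `u`. -/
noncomputable def adv (A : V → V → ℤ) (S : Finset V) (u : V) : ℝ := ∑ m ∈ S, wt A S m * (A m u : ℝ)

/-- The sign of the advantage. -/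
noncomputable def sg (A : V → V → ℤ) (S : Finset V) (u : V) : ℤ := ((SignType.sign (adv A S u) : SignType) : ℤ)

theorem CM.pos {A : V → V → ℤ} {S : Finset V} (h : CM A S) : Pos A S (wt A S) := by
  have h1 : wt A S = h.2.choose := by simp [wt, h.2]
  rw [h1]; exact h.2.choose_spec

theorem CM.odd {A : V → V → ℤ} (hA : IsTour A) {S : Finset V} (h : CM A S) : Odd S.card := by
  by_contra hn
  rw [Nat.not_odd_iff_even] at hn
  obtain ⟨m, hm⟩ := h.1
  have := real_ker hA S (wt A S) h.pos.2 (Or.inl hn) m hm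
  exact absurd this (h.pos.1 m hm).ne'

theorem CM.adv_self {A : V → V → ℤ} {S : Finset V} (h : CM A S) {u : V} (hu : u ∈ S) : adv A S u = 0 :=
  h.pos.2 u hu

theorem ne_zero_of_pos {A : V → V → ℤ} (hA : IsTour A) {S : Finset V} (hS : S.Nonempty) {p : V → ℝ}
    (hp : Pos A S p) {u : V} (hu : u ∉ S) : ∑ m ∈ S, p m * (A m u : ℝ) ≠ 0 := by
  intro h0
  let q : V → ℝ := fun m => if m = u then 0 else p m
  have hq : ∀ v, ∑ m ∈ insert u S, q m * (A m v : ℝ) = ∑ m ∈ S, p m * (A m v : ℝ) := by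
    intro v
    rw [sum_insert hu]
    have h1 : q u = 0 := by simp [q]
    rw [h1, zero_mul, zero_add]
    refine sum_congr rfl fun m hm => ?_
    have h2 : q m = p m := by
      have : m ≠ u := fun h => hu (h ▸ hm)
      simp [q, this]
    rw [h2]
  have hk : ∀ v ∈ insert u S, ∑ m ∈ insert u S, q m * (A m v : ℝ) = 0 := by
    intro v hv
    rw [hq]
    rcases mem_insert.mp hv with rfl | hv
    · exact h0
    · exact hp.2 v hv
  obtain ⟨m, hm⟩ := hS
  have h3 := real_ker hA (insert u S) q hk (Or.inr ⟨u, mem_insert_self _ _, by simp [q]⟩) m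
    (mem_insert_of_mem hm)
  have h4 : q m = p m := by
    have : m ≠ u := fun h => hu (h ▸ hm)
    simp [q, this]
  rw [h4] at h3
  exact absurd h3 (hp.1 m hm).ne'

theorem CM.adv_ne {A : V → V → ℤ} (hA : IsTour A) {S : Finset V} (h : CM A S) {u : V} (hu : u ∉ S) :
    adv A S u ≠ 0 := ne_zero_of_pos hA h.1 h.pos hu

/-- The weights are unique up to a positive factor. -/
theorem pos_unique {A : V → V → ℤ} (hA : IsTour A) {S : Finset V} (hS : S.Nonempty) {p p' : V → ℝ}
    (hp : Pos A S p) (hp' : Pos A S p') : ∃ c : ℝ, 0 < c ∧ ∀ m ∈ S, p' m = c * p m := by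
  obtain ⟨m0, hm0⟩ := hS
  have h0 := hp.1 m0 hm0
  have h0' := hp'.1 m0 hm0
  have hk : ∀ m ∈ S, (fun m => p m0 * p' m - p' m0 * p m) m = 0 := by
    refine real_ker hA S _ ?_ (Or.inr ⟨m0, hm0, by ring⟩)
    intro u hu
    have h1 : ∑ m ∈ S, (p m0 * p' m - p' m0 * p m) * (A m u : ℝ) =
        p m0 * ∑ m ∈ S, p' m * (A m u : ℝ) - p' m0 * ∑ m ∈ S, p m * (A m u : ℝ) := by
      rw [mul_sum, mul_sum, ← sum_sub_distrib]
      exact sum_congr rfl fun m _ => by ring
    rw [h1, hp.2 u hu, hp'.2 u hu]; ring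
  refine ⟨p' m0 / p m0, div_pos h0' h0, fun m hm => ?_⟩
  have := hk m hm
  simp only at this
  field_simp
  linarith

/-- Solutions of the symmetric game. -/
theorem exists_nonneg {A : V → V → ℤ} (hA : IsTour A) (T : Finset V) (hT : T.Nonempty) :
    ∃ x : V → ℝ, (∀ m ∈ T, 0 ≤ x m) ∧ ∑ m ∈ T, x m = 1 ∧ ∀ u ∈ T, 0 ≤ ∑ m ∈ T, x m * (A m u : ℝ) := by
  classical
  let f : (T → ℝ) → (T → ℝ) → ℝ := fun x y => ∑ u : T, ∑ m : T, x u * y m * (A m u : ℝ)
  have hne : (stdSimplex ℝ T).Nonempty := by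
    obtain ⟨m, hm⟩ := hT
    exact ⟨Pi.single ⟨m, hm⟩ 1, single_mem_stdSimplex ℝ _⟩
  have hlin1 : ∀ y, IsLinearMap ℝ (fun x => f x y) := by
    intro y
    refine ⟨fun a b => ?_, fun c a => ?_⟩
    · simp only [f, Pi.add_apply, ← sum_add_distrib]
      exact sum_congr rfl fun u _ => sum_congr rfl fun m _ => by ring
    · simp only [f, Pi.smul_apply, smul_eq_mul, mul_sum]
      exact sum_congr rfl fun u _ => sum_congr rfl fun m _ => by ring
  have hlin2 : ∀ x, IsLinearMap ℝ (fun y => f x y) := by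
    intro y
    refine ⟨fun a b => ?_, fun c a => ?_⟩
    · simp only [f, Pi.add_apply, ← sum_add_distrib]
      exact sum_congr rfl fun u _ => sum_congr rfl fun m _ => by ring
    · simp only [f, Pi.smul_apply, smul_eq_mul, mul_sum]
      exact sum_congr rfl fun u _ => sum_congr rfl fun m _ => by ring
  have hskew : ∀ x y, f x y = - f y x := by
    intro x y
    simp only [f]
    rw [sum_comm, ← sum_neg_distrib]
    refine sum_congr rfl fun u _ => ?_
    rw [← sum_neg_distrib]
    refine sum_congr rfl fun m _ => ?_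
    rw [hA.skew m u]; push_cast; ring
  have hself : ∀ x, f x x = 0 := fun x => by have := hskew x x; linarith
  obtain ⟨a, ha, b, hb, hab⟩ := Sion.exists_isSaddlePointOn (X := stdSimplex ℝ T) (Y := stdSimplex ℝ T)
    (f := f) hne (convex_stdSimplex ℝ T) (isCompact_stdSimplex ℝ T)
    (fun y _ => (by
      have : Continuous (fun x => f x y) := by simp only [f]; fun_prop
      exact this.lowerSemicontinuous.lowerSemicontinuousOn _))
    (fun y _ => (((hlin1 y).mk' _).convexOn (convex_stdSimplex ℝ T)).quasiconvexOn)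
    (convex_stdSimplex ℝ T) hne (isCompact_stdSimplex ℝ T)
    (fun x _ => (by
      have : Continuous (fun y => f x y) := by simp only [f]; fun_prop
      exact this.upperSemicontinuous.upperSemicontinuousOn _))
    (fun x _ => (((hlin2 x).mk' _).concaveOn (convex_stdSimplex ℝ T)).quasiconcaveOn)
  have h2 : ∀ x ∈ stdSimplex ℝ T, 0 ≤ f x b := by
    intro x hx
    have := hab x hx a ha
    rwa [hself] at this
  have h3 : ∀ u : T, 0 ≤ ∑ m : T, b m * (A m u : ℝ) := by
    intro u
    have h4 := h2 (Pi.single u 1) (single_mem_stdSimplex ℝ u)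
    have h5 : f (Pi.single u 1) b = ∑ m : T, b m * (A m u : ℝ) := by
      simp only [f]
      rw [sum_eq_single u]
      · simp
      · intro v _ hv
        refine sum_eq_zero fun m _ => ?_
        rw [Pi.single_eq_of_ne hv]; ring
      · simp
    rwa [h5] at h4
  refine ⟨fun m => if h : m ∈ T then b ⟨m, h⟩ else 0, ?_, ?_, ?_⟩
  · intro m hm
    simp only [hm, dif_pos]
    exact hb.1 _
  · rw [← sum_coe_sort T, ← hb.2]
    refine sum_congr rfl fun m _ => ?_
    simp
  · intro u hu
    have h4 := h3 ⟨u, hu⟩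
    rw [← sum_coe_sort T]
    refine h4.trans_eq (sum_congr rfl fun m _ => ?_)
    simp

/-- The advantage has a sign which does not depend on the weights. -/
theorem adv_pos_of {A : V → V → ℤ} (hA : IsTour A) {S : Finset V} (hS : S.Nonempty) {p : V → ℝ}
    (hp : Pos A S p) {u : V} (hu : 0 < ∑ m ∈ S, p m * (A m u : ℝ)) : 0 < adv A S u := by
  have hcm : CM A S := ⟨hS, p, hp⟩
  obtain ⟨c, hc, h⟩ := pos_unique hA hS hp hcm.pos
  have h1 : adv A S u = c * ∑ m ∈ S, p m * (A m u : ℝ) := by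
    rw [adv, mul_sum]
    exact sum_congr rfl fun m hm => by rw [h m hm]; ring
  rw [h1]
  exact mul_pos hc hu

/-- Existence. -/
theorem bip_exists {A : V → V → ℤ} (hA : IsTour A) (T : Finset V) (hT : T.Nonempty) :
    ∃ S, S ⊆ T ∧ CM A S ∧ ∀ u ∈ T \ S, 0 < adv A S u := by
  classical
  obtain ⟨x, hx, hx1, hxu⟩ := exists_nonneg hA T hT
  let S := T.filter fun m => 0 < x m
  have hS : S.Nonempty := by
    by_contra h
    rw [not_nonempty_iff_eq_empty, filter_eq_empty_iff] at h
    have h0 : ∑ m ∈ T, x m = 0 := sum_eq_zero fun m hm => le_antisymm (not_lt.mp (h hm)) (hx m hm)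
    rw [hx1] at h0
    exact one_ne_zero h0
  have hsum : ∀ u, ∑ m ∈ S, x m * (A m u : ℝ) = ∑ m ∈ T, x m * (A m u : ℝ) := by
    intro u
    refine sum_subset (filter_subset _ _) fun m hm hm' => ?_
    have : x m = 0 := by
      by_contra hne
      exact hm' (mem_filter.mpr ⟨hm, lt_of_le_of_ne (hx m hm) (Ne.symm hne)⟩)
    rw [this, zero_mul]
  have htot : ∑ u ∈ T, x u * ∑ m ∈ T, x m * (A m u : ℝ) = 0 := by
    have h1 : ∑ u ∈ T, x u * ∑ m ∈ T, x m * (A m u : ℝ) =
        - ∑ u ∈ T, x u * ∑ m ∈ T, x m * (A m u : ℝ) := by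
      simp only [mul_sum]
      rw [← sum_neg_distrib]
      rw [sum_comm]
      refine sum_congr rfl fun u _ => ?_
      rw [← sum_neg_distrib]
      refine sum_congr rfl fun m _ => ?_
      rw [hA.skew m u]; push_cast; ring
    linarith
  have hz := (sum_eq_zero_iff_of_nonneg (fun u hu => mul_nonneg (hx u hu) (hxu u hu))).mp htot
  have hpos : Pos A S x := by
    refine ⟨fun m hm => (mem_filter.mp hm).2, fun u hu => ?_⟩
    rw [hsum]
    rcases mul_eq_zero.mp (hz u (mem_filter.mp hu).1) with h | h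
    · exact absurd h (mem_filter.mp hu).2.ne'
    · exact h
  refine ⟨S, filter_subset _ _, ⟨hS, x, hpos⟩, fun u hu => ?_⟩
  refine adv_pos_of hA hS hpos (lt_of_le_of_ne ?_ (Ne.symm ?_))
  · rw [hsum]; exact hxu u (mem_sdiff.mp hu).1
  · exact ne_zero_of_pos hA hS hpos (mem_sdiff.mp hu).2

/-- Uniqueness. -/
theorem bip_unique {A : V → V → ℤ} (hA : IsTour A) (T : Finset V) {S S' : Finset V} (hS : S ⊆ T)
    (hcm : CM A S) (hu : ∀ u ∈ T \ S, 0 < adv A S u) (hS' : S' ⊆ T)
    (hcm' : CM A S') (hu' : ∀ u ∈ T \ S', 0 < adv A S' u) : S = S' := by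
  have key : ∀ {S S' : Finset V}, S ⊆ T → CM A S → (∀ u ∈ T \ S, 0 < adv A S u) → S' ⊆ T → CM A S' →
      (∀ u ∈ T \ S', 0 < adv A S' u) → S' ⊆ S := by
    intro S S' hS hcm hu hS' hcm' hu'
    have h1 : 0 ≤ ∑ u ∈ S', wt A S' u * adv A S u := by
      refine sum_nonneg fun u hu1 => mul_nonneg (hcm'.pos.1 u hu1).le ?_
      by_cases h : u ∈ S
      · rw [hcm.adv_self h]
      · exact (hu u (mem_sdiff.mpr ⟨hS' hu1, h⟩)).le
    have h2 : 0 ≤ ∑ u ∈ S, wt A S u * adv A S' u := by
      refine sum_nonneg fun u hu1 => mul_nonneg (hcm.pos.1 u hu1).le ?_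
      by_cases h : u ∈ S'
      · rw [hcm'.adv_self h]
      · exact (hu' u (mem_sdiff.mpr ⟨hS hu1, h⟩)).le
    have h3 : ∑ u ∈ S', wt A S' u * adv A S u = - ∑ u ∈ S, wt A S u * adv A S' u := by
      simp only [adv, mul_sum]
      rw [← sum_neg_distrib, sum_comm]
      refine sum_congr rfl fun u _ => ?_
      rw [← sum_neg_distrib]
      refine sum_congr rfl fun m _ => ?_
      rw [hA.skew u m]; push_cast; ring
    have h4 : ∑ u ∈ S', wt A S' u * adv A S u = 0 := by linarith
    intro u hu1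
    by_contra hn
    have h5 : ∀ v ∈ S', 0 ≤ wt A S' v * adv A S v := by
      intro v hv
      refine mul_nonneg (hcm'.pos.1 v hv).le ?_
      by_cases h : v ∈ S
      · rw [hcm.adv_self h]
      · exact (hu v (mem_sdiff.mpr ⟨hS' hv, h⟩)).le
    have h6 := (sum_eq_zero_iff_of_nonneg h5).mp h4 u hu1
    have h7 := mul_pos (hcm'.pos.1 u hu1) (hu u (mem_sdiff.mpr ⟨hS' hu1, hn⟩))
    exact absurd h6 h7.ne'
  exact Subset.antisymm (key hS' hcm' hu' hS hcm hu) (key hS hcm hu hS' hcm' hu')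

end Pool.Agent.H65.Car
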