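import Pool.Agent.H65.Car.Game

/-!
# The identity

`∑ 2^{|S|} ∏_{u ∈ T \ S} sgn(adv S u) = 1 - (-1)^{|T|}`, over the completely mixed subsets `S` of `T`.
-/

set_option autoImplicit false

open Finset

namespace Pool.Agent.H65.Car

variable {V : Type*} [DecidableEq V]

open Classical in
/-- `1` if `S` is completely mixed. -/
noncomputable def cm (A : V → V → ℤ) (S : Finset V) : ℤ := if CM A S then 1 else 0

open Classical in
/-- `1` if `S` beats `u`. -/
noncomputable def wn (A : V → V → ℤ) (S : Finset V) (u : V) : ℤ := if 0 < adv A S u then 1 else 0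

theorem count_one {A : V → V → ℤ} (hA : IsTour A) (T : Finset V) :
    ∑ S ∈ T.powerset, cm A S * ∏ u ∈ T \ S, wn A S u = if T = ∅ then 0 else 1 := by
  classical
  by_cases hT : T = ∅
  · subst hT
    rw [if_pos rfl]
    refine sum_eq_zero fun S hS => ?_
    have : S = ∅ := subset_empty.mp (mem_powerset.mp hS)
    have h : ¬ CM A S := fun h => by
      have := h.1
      simp_all
    simp [cm, h]
  · rw [if_neg hT]
    obtain ⟨S0, hS0, hcm0, hu0⟩ := bip_exists hA T (nonempty_iff_ne_empty.mpr hT)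
    rw [sum_eq_single_of_mem S0 (mem_powerset.mpr hS0)]
    · have h1 : cm A S0 = 1 := by simp [cm, hcm0]
      rw [h1, one_mul]
      exact prod_eq_one fun u hu => by simp [wn, hu0 u hu]
    · intro S hS hne
      by_cases hcm : CM A S
      · have h2 : ∃ u ∈ T \ S, ¬ 0 < adv A S u := by
          by_contra hn
          push Not at hn
          exact hne (bip_unique hA T (mem_powerset.mp hS) hcm hn hS0 hcm0 hu0)
        obtain ⟨u, hu, hn⟩ := h2
        have h3 : wn A S u = 0 := by simp only [wn]; rw [if_neg hn]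
        rw [prod_eq_zero hu h3, mul_zero]
      · simp [cm, hcm]

theorem sg_eq {A : V → V → ℤ} (hA : IsTour A) {S : Finset V} (h : CM A S) {u : V} (hu : u ∉ S) :
    sg A S u = 2 * wn A S u + (-1) := by
  have h1 := h.adv_ne hA hu
  unfold sg wn
  rcases lt_or_gt_of_ne h1 with h2 | h2
  · rw [sign_neg h2, if_neg (not_lt.mpr h2.le)]; rfl
  · rw [sign_pos h2, if_pos h2]; rfl

/-- **The identity.** -/
theorem identity {A : V → V → ℤ} (hA : IsTour A) (T : Finset V) :
    ∑ S ∈ T.powerset, cm A S * 2 ^ S.card * ∏ u ∈ T \ S, sg A S u = 1 - (-1) ^ T.card := by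
  classical
  have h1 : ∀ S ∈ T.powerset, cm A S * 2 ^ S.card * ∏ u ∈ T \ S, sg A S u =
      ∑ Y ∈ (T \ S).powerset, (2 : ℤ) ^ (S ∪ Y).card * (-1) ^ (T \ (S ∪ Y)).card *
        (cm A S * ∏ u ∈ (S ∪ Y) \ S, wn A S u) := by
    intro S hS
    by_cases hcm : CM A S
    · have h2 : ∏ u ∈ T \ S, sg A S u = ∏ u ∈ T \ S, (2 * wn A S u + (-1)) :=
        prod_congr rfl fun u hu => sg_eq hA hcm (mem_sdiff.mp hu).2
      rw [h2, prod_add, mul_sum]
      refine sum_congr rfl fun Y hY => ?_
      have hYT : Y ⊆ T \ S := mem_powerset.mp hY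
      have hd : Disjoint S Y := by
        rw [disjoint_left]
        intro a ha hb
        exact (mem_sdiff.mp (hYT hb)).2 ha
      rw [prod_mul_distrib, prod_const, prod_const, card_union_of_disjoint hd]
      have h3 : (S ∪ Y) \ S = Y := by
        rw [union_sdiff_left]
        exact sdiff_eq_self_of_disjoint hd.symm
      have h4 : (T \ S) \ Y = T \ (S ∪ Y) := by
        ext a; simp only [mem_sdiff, mem_union]; tauto
      rw [h3, h4, pow_add]
      ring
    · have h0 : cm A S = 0 := by simp [cm, hcm]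
      rw [h0]
      simp
  rw [sum_congr rfl h1, sum_sigma']
  have h5 : ∑ x ∈ T.powerset.sigma fun S => (T \ S).powerset,
      (2 : ℤ) ^ (x.1 ∪ x.2).card * (-1) ^ (T \ (x.1 ∪ x.2)).card *
        (cm A x.1 * ∏ u ∈ (x.1 ∪ x.2) \ x.1, wn A x.1 u) =
      ∑ x ∈ T.powerset.sigma fun T' => T'.powerset,
        (2 : ℤ) ^ x.1.card * (-1) ^ (T \ x.1).card * (cm A x.2 * ∏ u ∈ x.1 \ x.2, wn A x.2 u) := by
    refine sum_bij' (fun x _ => ⟨x.1 ∪ x.2, x.1⟩) (fun x _ => ⟨x.2, x.1 \ x.2⟩) ?_ ?_ ?_ ?_ ?_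
    · rintro ⟨S, Y⟩ h
      simp only [mem_sigma, mem_powerset] at h ⊢
      exact ⟨union_subset h.1 (h.2.trans sdiff_subset), subset_union_left⟩
    · rintro ⟨T', S⟩ h
      simp only [mem_sigma, mem_powerset] at h ⊢
      exact ⟨h.2.trans h.1, sdiff_subset_sdiff h.1 (Subset.refl _)⟩
    · rintro ⟨S, Y⟩ h
      simp only [mem_sigma, mem_powerset] at h
      have hd : Disjoint S Y := by
        rw [disjoint_left]
        intro a ha hb
        exact (mem_sdiff.mp (h.2 hb)).2 ha
      have h3 : (S ∪ Y) \ S = Y := by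
        rw [union_sdiff_left]
        exact sdiff_eq_self_of_disjoint hd.symm
      simp only [h3]
    · rintro ⟨T', S⟩ h
      simp only [mem_sigma, mem_powerset] at h
      simp only [union_sdiff_of_subset h.2]
    · rintro ⟨S, Y⟩ h
      rfl
  rw [h5, ← sum_sigma' (s := T.powerset) (t := fun T' => T'.powerset)
    (f := fun T' S => (2 : ℤ) ^ T'.card * (-1) ^ (T \ T').card *
      (cm A S * ∏ u ∈ T' \ S, wn A S u))]
  have h6 : ∀ T' ∈ T.powerset, ∑ S ∈ T'.powerset, (2 : ℤ) ^ T'.card * (-1) ^ (T \ T').card *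
      (cm A S * ∏ u ∈ T' \ S, wn A S u) =
      (2 : ℤ) ^ T'.card * (-1) ^ (T.card - T'.card) - (if T' = ∅ then (-1) ^ T.card else 0) := by
    intro T' hT'
    rw [← mul_sum, count_one hA, card_sdiff_of_subset (mem_powerset.mp hT')]
    by_cases h : T' = ∅
    · simp [h]
    · simp [h]
  rw [sum_congr rfl h6, sum_sub_distrib, sum_pow_mul_eq_add_pow]
  rw [sum_ite_eq' T.powerset ∅ (fun _ => (-1 : ℤ) ^ T.card), if_pos (empty_mem_powerset T)]
  norm_num

end Pool.Agent.H65.Car
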