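import Mathlib

/-!
# Kernels of tournament matrices

For a skew `±1` matrix `A` on `S` a kernel vector with a zero entry is zero, and all kernel vectors
are zero if `|S|` is even.
-/

set_option autoImplicit false

open Finset

namespace Pool.Agent.H65.Car

variable {V : Type*}

/-- `A` is the skew matrix of a tournament. -/
structure IsTour (A : V → V → ℤ) : Prop where
  skew : ∀ x y, A x y = - A y x
  pm : ∀ x y, x ≠ y → A x y = 1 ∨ A x y = -1

theorem IsTour.self {A : V → V → ℤ} (h : IsTour A) (x : V) : A x x = 0 := by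
  have := h.skew x x
  omega

theorem int_two_dvd [DecidableEq V] {A : V → V → ℤ} (hA : IsTour A) (S : Finset V) (q : V → ℤ)
    (hk : ∀ u ∈ S, ∑ m ∈ S, q m * A m u = 0)
    (h : Even S.card ∨ ∃ m ∈ S, q m = 0) : ∀ m ∈ S, (2 : ℤ) ∣ q m := by
  -- all entries are congruent to the sum
  have h1 : ∀ u ∈ S, (2 : ℤ) ∣ q u - ∑ m ∈ S, q m := by
    intro u hu
    have h2 : (2 : ℤ) ∣ ∑ m ∈ S, (q m * A m u - (if m = u then 0 else q m)) := by
      refine dvd_sum fun m hm => ?_
      by_cases hmu : m = u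
      · simp [hmu, hA.self]
      · rw [if_neg hmu]
        rcases hA.pm m u hmu with h3 | h3
        · rw [h3]; simp
        · rw [h3]; exact ⟨- q m, by ring⟩
    rw [sum_sub_distrib, hk u hu] at h2
    have h3 : ∑ m ∈ S, (if m = u then 0 else q m) = ∑ m ∈ S, q m - q u := by
      rw [eq_sub_iff_add_eq]
      have h4 : q u = ∑ m ∈ S, if m = u then q m else 0 := by
        rw [sum_ite_eq' S u q, if_pos hu]
      rw [h4, ← sum_add_distrib]
      refine sum_congr rfl fun m _ => ?_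
      by_cases hmu : m = u
      · simp [hmu]
      · simp [hmu]
    rw [h3] at h2
    have h5 : q u - ∑ m ∈ S, q m = 0 - (∑ m ∈ S, q m - q u) := by ring
    rw [h5]; exact h2
  have h6 : (2 : ℤ) ∣ ∑ m ∈ S, q m := by
    rcases h with h | ⟨m, hm, h0⟩
    · have h7 : (2 : ℤ) ∣ ∑ u ∈ S, (q u - ∑ m ∈ S, q m) := dvd_sum h1
      rw [sum_sub_distrib, sum_const, nsmul_eq_mul] at h7
      obtain ⟨c, hc⟩ := h
      have h8 : (2 : ℤ) ∣ (S.card : ℤ) * ∑ m ∈ S, q m := by
        rw [hc]; push_cast; exact ⟨(c : ℤ) * ∑ m ∈ S, q m, by ring⟩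
      have h9 := dvd_add h7 h8
      simpa using h9
    · have := h1 m hm
      rw [h0, zero_sub, dvd_neg] at this
      exact this
  intro m hm
  have := dvd_add (h1 m hm) h6
  simpa using this

theorem int_pow_dvd [DecidableEq V] {A : V → V → ℤ} (hA : IsTour A) (S : Finset V) (k : ℕ) :
    ∀ (q : V → ℤ), (∀ u ∈ S, ∑ m ∈ S, q m * A m u = 0) →
    (Even S.card ∨ ∃ m ∈ S, q m = 0) → ∀ m ∈ S, (2 : ℤ) ^ k ∣ q m := by
  induction k with
  | zero => intro q _ _ m _; simp
  | succ k ih =>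
    intro q hk h m hm
    have h2 := int_two_dvd hA S q hk h
    let q' : V → ℤ := fun m => q m / 2
    have hq' : ∀ m ∈ S, q m = 2 * q' m := fun m hm => (Int.mul_ediv_cancel' (h2 m hm)).symm
    have hk' : ∀ u ∈ S, ∑ m ∈ S, q' m * A m u = 0 := by
      intro u hu
      have h3 : 2 * ∑ m ∈ S, q' m * A m u = 0 := by
        rw [mul_sum, ← hk u hu]
        refine sum_congr rfl fun m hm => ?_
        rw [hq' m hm]; ring
      omega
    have h' : Even S.card ∨ ∃ m ∈ S, q' m = 0 := by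
      rcases h with h | ⟨m, hm, h0⟩
      · exact Or.inl h
      · refine Or.inr ⟨m, hm, ?_⟩
        have := hq' m hm
        omega
    have h4 := ih q' hk' h' m hm
    rw [hq' m hm, pow_succ, mul_comm]
    exact mul_dvd_mul_left 2 h4

theorem int_ker [DecidableEq V] {A : V → V → ℤ} (hA : IsTour A) (S : Finset V) (q : V → ℤ)
    (hk : ∀ u ∈ S, ∑ m ∈ S, q m * A m u = 0)
    (h : Even S.card ∨ ∃ m ∈ S, q m = 0) : ∀ m ∈ S, q m = 0 := by
  intro m hm
  by_contra hne
  have h1 := int_pow_dvd hA S (q m).natAbs q hk h m hm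
  have h2 : ((2 : ℤ) ^ (q m).natAbs).natAbs ≤ (q m).natAbs := Int.natAbs_le_of_dvd_ne_zero h1 hne
  rw [Int.natAbs_pow] at h2
  have h3 : (q m).natAbs < 2 ^ (q m).natAbs := Nat.lt_two_pow_self
  have h4 : (2 : ℤ).natAbs = 2 := rfl
  rw [h4] at h2
  omega

theorem rat_ker [DecidableEq V] {A : V → V → ℤ} (hA : IsTour A) (S : Finset V) (q : V → ℚ)
    (hk : ∀ u ∈ S, ∑ m ∈ S, q m * (A m u : ℚ) = 0)
    (h : Even S.card ∨ ∃ m ∈ S, q m = 0) : ∀ m ∈ S, q m = 0 := by
  let D : ℕ := ∏ m ∈ S, (q m).den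
  have hD : (D : ℚ) ≠ 0 := by
    have : D ≠ 0 := prod_ne_zero_iff.mpr fun m _ => (q m).den_nz
    exact_mod_cast this
  have hz : ∀ m ∈ S, ∃ z : ℤ, (z : ℚ) = D * q m := by
    intro m hm
    obtain ⟨c, hc⟩ := dvd_prod_of_mem (fun m => (q m).den) hm
    refine ⟨c * (q m).num, ?_⟩
    have h1 : (D : ℚ) = (q m).den * c := by
      have : D = (q m).den * c := hc
      rw [this]; push_cast; ring
    rw [h1]
    push_cast
    have h2 : ((q m).den : ℚ) * q m = (q m).num := by
      rw [mul_comm]; exact Rat.mul_den_eq_num (q m)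
    calc (c : ℚ) * (q m).num = c * ((q m).den * q m) := by rw [h2]
      _ = _ := by ring
  let z : V → ℤ := fun m => if hm : m ∈ S then (hz m hm).choose else 0
  have hzs : ∀ m ∈ S, (z m : ℚ) = D * q m := by
    intro m hm
    have : z m = (hz m hm).choose := by simp [z, hm]
    rw [this]; exact (hz m hm).choose_spec
  have h1 : ∀ m ∈ S, z m = 0 := by
    refine int_ker hA S z ?_ ?_
    · intro u hu
      have h2 : ((∑ m ∈ S, z m * A m u : ℤ) : ℚ) = 0 := by
        push_cast
        have : ∑ m ∈ S, (z m : ℚ) * (A m u : ℚ) = D * ∑ m ∈ S, q m * (A m u : ℚ) := by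
          rw [mul_sum]
          refine sum_congr rfl fun m hm => ?_
          rw [hzs m hm]; ring
        rw [this, hk u hu, mul_zero]
      exact_mod_cast h2
    · rcases h with h | ⟨m, hm, h0⟩
      · exact Or.inl h
      · refine Or.inr ⟨m, hm, ?_⟩
        have h2 : (z m : ℚ) = 0 := by rw [hzs m hm, h0, mul_zero]
        exact_mod_cast h2
  intro m hm
  have h2 := hzs m hm
  rw [h1 m hm] at h2
  have h3 : (D : ℚ) * q m = 0 := by rw [← h2]; simp
  rcases mul_eq_zero.mp h3 with h4 | h4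
  · exact absurd h4 hD
  · exact h4

/-- **Kernel lemma.** -/
theorem real_ker [DecidableEq V] {A : V → V → ℤ} (hA : IsTour A) (S : Finset V) (q : V → ℝ)
    (hk : ∀ u ∈ S, ∑ m ∈ S, q m * (A m u : ℝ) = 0)
    (h : Even S.card ∨ ∃ m ∈ S, q m = 0) : ∀ m ∈ S, q m = 0 := by
  intro m hm
  rw [← Module.forall_dual_apply_eq_zero_iff ℚ (q m)]
  intro φ
  refine rat_ker hA S (fun m => φ (q m)) ?_ ?_ m hm
  · intro u hu
    have h1 := congrArg φ (hk u hu)
    rw [map_sum, map_zero] at h1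
    rw [← h1]
    refine sum_congr rfl fun m _ => ?_
    have h2 : q m * (A m u : ℝ) = (A m u : ℚ) • q m := by
      rw [Rat.smul_def]; push_cast; ring
    rw [h2, map_smul, smul_eq_mul, mul_comm]
  · rcases h with h | ⟨m, hm, h0⟩
    · exact Or.inl h
    · exact Or.inr ⟨m, hm, by simp [h0]⟩

end Pool.Agent.H65.Car
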