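import Pool.Agent.H65.Car.Ident

/-!
# Sampling with replacement

If `r` is odd then `2^r #{x injective, completely mixed} ≤ 2 #{x injective} + 3^r #{x not injective}`,
over the functions `x : Fin r → V`.
-/

set_option autoImplicit false

open Finset

namespace Pool.Agent.H65.Car

variable {V : Type*} [DecidableEq V]

open Classical in
/-- `1` if `x` is injective on `S`. -/
noncomputable def inj {ι : Type*} (x : ι → V) (S : Finset ι) : ℤ := if Set.InjOn x S then 1 else 0

theorem cm_pos {A : V → V → ℤ} {S : Finset V} (h : CM A S) : cm A S = 1 := if_pos h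

theorem cm_neg {A : V → V → ℤ} {S : Finset V} (h : ¬ CM A S) : cm A S = 0 := if_neg h

theorem inj_pos {ι : Type*} {x : ι → V} {S : Finset ι} (h : Set.InjOn x S) : inj x S = 1 := if_pos h

theorem inj_neg {ι : Type*} {x : ι → V} {S : Finset ι} (h : ¬ Set.InjOn x S) : inj x S = 0 := if_neg h

/-- The term of `S`. -/
noncomputable def term {ι : Type*} [Fintype ι] [DecidableEq ι] (A : V → V → ℤ) (S : Finset ι) (x : ι → V) : ℤ :=
  inj x S * cm A (S.image x) * 2 ^ S.card * ∏ i ∈ univ \ S, sg A (S.image x) (x i)

theorem sum_term_injective {ι : Type*} [Fintype ι] [DecidableEq ι] {A : V → V → ℤ} (hA : IsTour A)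
    (x : ι → V) (hx : Function.Injective x) :
    ∑ S : Finset ι, term A S x = 1 - (-1) ^ Fintype.card ι := by
  have h1 := identity hA (univ.image x)
  rw [card_image_of_injective _ hx, card_univ] at h1
  rw [← h1]
  have h2 : (univ.image x).powerset = (univ : Finset (Finset ι)).image (fun S => S.image x) := by
    ext Y
    simp only [mem_powerset, mem_image, mem_univ, true_and]
    constructor
    · intro h
      obtain ⟨S, _, hS⟩ := subset_image_iff.mp h
      exact ⟨S, hS⟩
    · rintro ⟨S, rfl⟩
      exact image_subset_image (subset_univ _)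
  rw [h2, sum_image (fun S _ S' _ h => image_injective hx h)]
  refine sum_congr rfl fun S _ => ?_
  have h3 : inj x S = 1 := by simp [inj, hx.injOn]
  rw [term, h3, one_mul, card_image_of_injective _ hx, ← image_sdiff _ _ hx,
    prod_image (fun a _ b _ h => hx h)]

theorem abs_sg_le (A : V → V → ℤ) (S : Finset V) (u : V) : |sg A S u| ≤ 1 := by
  unfold sg
  rcases lt_trichotomy (adv A S u) 0 with h | h | h
  · rw [sign_neg h]; simp
  · rw [h, sign_zero]; simp
  · rw [sign_pos h]; simp

theorem abs_cm_le (A : V → V → ℤ) (S : Finset V) : |cm A S| ≤ 1 := by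
  unfold cm; split_ifs <;> simp

theorem abs_inj_le {ι : Type*} (x : ι → V) (S : Finset ι) : |inj x S| ≤ 1 := by
  unfold inj; split_ifs <;> simp

theorem abs_term_le {ι : Type*} [Fintype ι] [DecidableEq ι] (A : V → V → ℤ) (S : Finset ι) (x : ι → V) :
    |term A S x| ≤ 2 ^ S.card := by
  unfold term
  rw [abs_mul, abs_mul, abs_mul, abs_prod]
  have h1 := abs_inj_le x S
  have h2 := abs_cm_le A (S.image x)
  have h3 : ∏ i ∈ univ \ S, |sg A (S.image x) (x i)| ≤ 1 :=
    prod_le_one (fun i _ => abs_nonneg _) fun i _ => abs_sg_le _ _ _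
  have h4 : |(2 : ℤ) ^ S.card| = 2 ^ S.card := abs_of_nonneg (by positivity)
  rw [h4]
  have h5 : |inj x S| * |cm A (S.image x)| ≤ 1 := mul_le_one₀ h1 (abs_nonneg _) h2
  calc |inj x S| * |cm A (S.image x)| * 2 ^ S.card * ∏ i ∈ univ \ S, |sg A (S.image x) (x i)|
      ≤ 1 * 2 ^ S.card * 1 := by
        refine mul_le_mul (mul_le_mul_of_nonneg_right h5 (by positivity)) h3
          (prod_nonneg fun _ _ => abs_nonneg _) (by positivity)
    _ = 2 ^ S.card := by ring

theorem sum_two_pow (ι : Type*) [Fintype ι] [DecidableEq ι] : ∑ S : Finset ι, (2 : ℤ) ^ S.card = 3 ^ Fintype.card ι := by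
  have h := sum_pow_mul_eq_add_pow (2 : ℤ) 1 (univ : Finset ι)
  rw [powerset_univ] at h
  simp only [one_pow, mul_one] at h
  rw [h, card_univ]; norm_num

theorem sum_term_le {ι : Type*} [Fintype ι] [DecidableEq ι] (A : V → V → ℤ) (x : ι → V) :
    ∑ S : Finset ι, term A S x ≤ 3 ^ Fintype.card ι := by
  rw [← sum_two_pow]
  exact sum_le_sum fun S _ => (le_abs_self _).trans (abs_term_le A S x)

theorem sum_x_term [Fintype V] {ι : Type*} [Fintype ι] [DecidableEq ι] {A : V → V → ℤ} (hA : IsTour A)
    (hι : Odd (Fintype.card ι)) (S : Finset ι) : 0 ≤ ∑ x : ι → V, term A S x := by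
  classical
  rw [← (Equiv.piEquivPiSubtypeProd (fun i => i ∈ S) (fun _ => V)).symm.sum_comp, Fintype.sum_prod_type]
  refine sum_nonneg fun y _ => ?_
  have h1 : ∀ z : {i // ¬ i ∈ S} → V,
      term A S ((Equiv.piEquivPiSubtypeProd (fun i => i ∈ S) (fun _ => V)).symm (y, z)) =
      (if Function.Injective y then (1 : ℤ) else 0) * cm A (univ.image y) * 2 ^ S.card *
        ∏ j : {i // ¬ i ∈ S}, sg A (univ.image y) (z j) := by
    intro z
    set x := (Equiv.piEquivPiSubtypeProd (fun i => i ∈ S) (fun _ => V)).symm (y, z) with hx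
    have hxS : ∀ i (h : i ∈ S), x i = y ⟨i, h⟩ := by
      intro i h
      rw [hx]; simp [Equiv.piEquivPiSubtypeProd, h]
    have hxS' : ∀ i (h : ¬ i ∈ S), x i = z ⟨i, h⟩ := by
      intro i h
      rw [hx]; simp [Equiv.piEquivPiSubtypeProd, h]
    have himg : S.image x = univ.image y := by
      ext v
      simp only [mem_image, mem_univ, true_and, Subtype.exists]
      constructor
      · rintro ⟨i, hi, rfl⟩; exact ⟨i, hi, (hxS i hi).symm⟩
      · rintro ⟨i, hi, rfl⟩; exact ⟨i, hi, hxS i hi⟩
    have hinj : inj x S = if Function.Injective y then (1 : ℤ) else 0 := by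
      unfold inj
      have : Set.InjOn x S ↔ Function.Injective y := by
        constructor
        · rintro h ⟨a, ha⟩ ⟨b, hb⟩ hab
          rw [← hxS a ha, ← hxS b hb] at hab
          exact Subtype.ext (h ha hb hab)
        · intro h a ha b hb hab
          rw [hxS a ha, hxS b hb] at hab
          exact congrArg Subtype.val (h hab)
      simp only [this]
    unfold term
    rw [himg, hinj]
    congr 1
    have hsd : (univ \ S : Finset ι) = univ.filter (fun i => ¬ i ∈ S) := by ext i; simp
    rw [hsd]
    rw [← prod_subtype_eq_prod_filter]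
    have hu : (univ.subtype (fun i => ¬ i ∈ S) : Finset {i // ¬ i ∈ S}) = univ := by ext; simp
    rw [hu]
    exact prod_congr rfl fun j _ => by rw [hxS' j.1 j.2]
  rw [sum_congr rfl fun z _ => h1 z, ← mul_sum]
  have h2 : ∑ z : {i // ¬ i ∈ S} → V, ∏ j : {i // ¬ i ∈ S}, sg A (univ.image y) (z j) =
      (∑ v : V, sg A (univ.image y) v) ^ (Fintype.card ι - S.card) := by
    have h3 := prod_univ_sum (fun _ : {i // ¬ i ∈ S} => (univ : Finset V))
      (fun _ v => sg A (univ.image y) v)
    rw [Fintype.piFinset_univ] at h3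
    rw [← h3, prod_const, card_univ, Fintype.card_subtype_compl, Fintype.card_coe]
  rw [h2]
  by_cases hc : CM A (univ.image y)
  · by_cases hy : Function.Injective y
    · have h4 : (univ.image y).card = S.card := by
        rw [card_image_of_injective _ hy, card_univ, Fintype.card_coe]
      have h5 := hc.odd hA
      rw [h4] at h5
      have h6 : Even (Fintype.card ι - S.card) := Nat.Odd.sub_odd hι h5
      have h7 := h6.pow_nonneg (∑ v : V, sg A (univ.image y) v)
      refine mul_nonneg ?_ h7
      have h8 : 0 ≤ cm A (univ.image y) := by unfold cm; split_ifs <;> simp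
      rw [if_pos hy]
      positivity
    · rw [if_neg hy]; simp
  · rw [cm_neg hc]; simp

open Classical in
/-- **Main finite inequality.** -/
theorem main_ineq [Fintype V] {ι : Type*} [Fintype ι] [DecidableEq ι] {A : V → V → ℤ} (hA : IsTour A)
    (hι : Odd (Fintype.card ι)) :
    (2 : ℤ) ^ Fintype.card ι *
        ((univ.filter fun x : ι → V => Function.Injective x ∧ CM A (univ.image x)).card : ℤ) ≤
      2 * ((univ.filter fun x : ι → V => Function.Injective x).card : ℤ) +
      3 ^ Fintype.card ι * ((univ.filter fun x : ι → V => ¬ Function.Injective x).card : ℤ) := by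
  have h1 : ∑ x : ι → V, term A (univ : Finset ι) x ≤ ∑ x : ι → V, ∑ S : Finset ι, term A S x := by
    rw [sum_comm]
    exact single_le_sum (f := fun S => ∑ x : ι → V, term A S x)
      (fun S _ => sum_x_term hA hι S) (mem_univ (univ : Finset ι))
  have h2 : ∑ x : ι → V, term A (univ : Finset ι) x = (2 : ℤ) ^ Fintype.card ι *
        ((univ.filter fun x : ι → V => Function.Injective x ∧ CM A (univ.image x)).card : ℤ) := by
    rw [card_filter, Nat.cast_sum, mul_sum]
    refine sum_congr rfl fun x _ => ?_
    unfold term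
    rw [card_univ, sdiff_self, bot_eq_empty, prod_empty]
    by_cases h3 : Function.Injective x
    · rw [inj_pos h3.injOn]
      by_cases h4 : CM A (univ.image x)
      · rw [cm_pos h4, if_pos ⟨h3, h4⟩]; simp
      · rw [cm_neg h4, if_neg (fun h => h4 h.2)]; simp
    · have h5 : ¬ Set.InjOn x ((univ : Finset ι) : Set ι) := by
        rw [coe_univ, Set.injOn_univ]; exact h3
      rw [inj_neg h5, if_neg (fun h => h3 h.1)]; simp
  have h3 : ∑ x : ι → V, ∑ S : Finset ι, term A S x ≤
      ∑ x : ι → V, ((if Function.Injective x then (2 : ℤ) else 0) +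
        (if ¬ Function.Injective x then (3 : ℤ) ^ Fintype.card ι else 0)) := by
    refine sum_le_sum fun x _ => ?_
    by_cases hx : Function.Injective x
    · rw [sum_term_injective hA x hx, if_pos hx, if_neg (not_not.mpr hx), hι.neg_one_pow]
      norm_num
    · rw [if_neg hx, if_pos hx, zero_add]
      exact sum_term_le A x
  rw [← h2]
  refine (h1.trans h3).trans_eq ?_
  rw [sum_add_distrib, card_filter, card_filter, Nat.cast_sum, Nat.cast_sum, mul_sum, mul_sum]
  congr 1
  · refine sum_congr rfl fun x _ => ?_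
    by_cases hx : Function.Injective x <;> simp [hx]
  · refine sum_congr rfl fun x _ => ?_
    by_cases hx : Function.Injective x <;> simp [hx]

end Pool.Agent.H65.Car
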