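import Pool.Agent.H65.Car.Basic
import Pool.Agent.H65.Car.Samp

/-!
# The upper bound
-/

set_option autoImplicit false

open Finset Filter Topology

namespace Pool.Agent.H65.Car

theorem isTour_mat {k : ℕ} (T : Tournament k) : IsTour (mat T) := ⟨mat_skew T, mat_pm T⟩

/-- A copy of a carousel tournament is completely mixed. -/
theorem cm_of_carousel {N n : ℕ} (U : Tournament N) (f : Fin (2 * n + 1) → Fin N)
    (hf : Function.Injective f) (h : ∀ x y, (carousel n).arc x y ↔ U.arc (f x) (f y)) :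
    CM (mat U) (univ.image f) := by
  refine ⟨⟨f 0, mem_image_of_mem _ (mem_univ _)⟩, fun _ => 1, fun _ _ => one_pos, ?_⟩
  intro u hu
  obtain ⟨y, _, rfl⟩ := mem_image.mp hu
  rw [sum_image (fun a _ b _ h => hf h)]
  have h1 := carousel_regular n y
  have h2 : ∑ x, (mat (carousel n) x y : ℝ) = 0 := by exact_mod_cast h1
  rw [← h2]
  refine sum_congr rfl fun x _ => ?_
  rw [one_mul, mat_map (carousel n) U f h x y]

open Classical in
theorem card_copies_le {N n : ℕ} (U : Tournament N) :
    (2 * n + 1).factorial * (copies (carousel n) U).card ≤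
      (univ.filter fun x : Fin (2 * n + 1) → Fin N => Function.Injective x ∧ CM (mat U) (univ.image x)).card := by
  have h0 : ∀ S ∈ copies (carousel n) U, ∃ f : Fin (2 * n + 1) → Fin N, Function.Injective f ∧
      univ.image f = S ∧ ∀ x y, (carousel n).arc x y ↔ U.arc (f x) (f y) := by
    intro S hS
    exact (mem_filter.mp hS).2
  rcases (copies (carousel n) U).eq_empty_or_nonempty with he | ⟨S0, hS0⟩
  · rw [he]; simp
  have : Nonempty (Fin (2 * n + 1) → Fin N) := ⟨(h0 S0 hS0).choose⟩
  choose! F hF1 hF2 hF3 using h0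
  have h1 : (2 * n + 1).factorial * (copies (carousel n) U).card =
      ((copies (carousel n) U) ×ˢ (univ : Finset (Equiv.Perm (Fin (2 * n + 1))))).card := by
    rw [card_product, card_univ, Fintype.card_perm, Fintype.card_fin, mul_comm]
  rw [h1]
  refine card_le_card_of_injOn (fun p => F p.1 ∘ p.2) ?_ ?_
  · rintro ⟨S, σ⟩ h
    rw [mem_coe, mem_product] at h
    have hS := h.1
    dsimp only at hS
    rw [mem_coe, mem_filter]
    refine ⟨mem_univ _, (hF1 S hS).comp σ.injective, ?_⟩
    have h2 : univ.image (F S ∘ σ) = univ.image (F S) := by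
      rw [← image_image, image_univ_equiv]
    rw [h2]
    exact cm_of_carousel U (F S) (hF1 S hS) (hF3 S hS)
  · rintro ⟨S, σ⟩ h ⟨S', σ'⟩ h' heq
    rw [mem_coe, mem_product] at h h'
    have hS := h.1
    have hS' := h'.1
    dsimp only at hS hS' heq
    have h2 : ∀ (S : Finset (Fin N)) (σ : Equiv.Perm (Fin (2 * n + 1))),
        univ.image (F S ∘ σ) = univ.image (F S) := by
      intro S σ
      rw [← image_image, image_univ_equiv]
    have h3 : S = S' := by
      rw [← hF2 S hS, ← hF2 S' hS', ← h2 S σ, ← h2 S' σ', heq]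
    subst h3
    have h4 : σ = σ' := by
      refine Equiv.ext fun i => hF1 S hS ?_
      exact congrFun heq i
    rw [h4]

open Classical in
theorem card_injective (r N : ℕ) :
    (univ.filter fun x : Fin r → Fin N => Function.Injective x).card = N.descFactorial r := by
  rw [← Fintype.card_subtype, Fintype.card_congr (Equiv.subtypeInjectiveEquivEmbedding (Fin r) (Fin N)),
    Fintype.card_embedding_eq, Fintype.card_fin, Fintype.card_fin]

open Classical in
theorem finite_bound {N n : ℕ} (U : Tournament N) :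
    (2 : ℝ) ^ (2 * n + 1) * ((2 * n + 1).factorial * ((copies (carousel n) U).card : ℝ)) ≤
      2 * (N.descFactorial (2 * n + 1) : ℝ) +
        3 ^ (2 * n + 1) * ((N : ℝ) ^ (2 * n + 1) - (N.descFactorial (2 * n + 1) : ℝ)) := by
  have h1 := main_ineq (ι := Fin (2 * n + 1)) (isTour_mat U) (by rw [Fintype.card_fin]; exact ⟨n, rfl⟩)
  rw [Fintype.card_fin, card_injective] at h1
  have h2 : ((univ.filter fun x : Fin (2 * n + 1) → Fin N => ¬ Function.Injective x).card : ℤ) =
      (N : ℤ) ^ (2 * n + 1) - (N.descFactorial (2 * n + 1) : ℤ) := by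
    have h3 := card_filter_add_card_filter_not (s := (univ : Finset (Fin (2 * n + 1) → Fin N)))
      (fun x => Function.Injective x)
    rw [card_injective, card_univ, Fintype.card_fun, Fintype.card_fin, Fintype.card_fin] at h3
    have h4 : ((N : ℤ) ^ (2 * n + 1)) = ((N ^ (2 * n + 1) : ℕ) : ℤ) := by push_cast; ring
    rw [h4, ← h3]; push_cast; ring
  rw [h2] at h1
  have h5 : (2 : ℤ) ^ (2 * n + 1) * ((2 * n + 1).factorial * ((copies (carousel n) U).card : ℤ)) ≤
      2 * (N.descFactorial (2 * n + 1) : ℤ) +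
        3 ^ (2 * n + 1) * ((N : ℤ) ^ (2 * n + 1) - (N.descFactorial (2 * n + 1) : ℤ)) := by
    refine le_trans ?_ h1
    refine mul_le_mul_of_nonneg_left ?_ (by positivity)
    exact_mod_cast card_copies_le (n := n) U
  exact_mod_cast h5

theorem density_bound {N n : ℕ} (U : Tournament N) (hN : 2 * n + 1 ≤ N) :
    density (carousel n) U ≤ (1 / 4) ^ n +
      (3 / 2) ^ (2 * n + 1) * ((N : ℝ) ^ (2 * n + 1) / (N.descFactorial (2 * n + 1) : ℝ) - 1) := by
  have h1 := finite_bound (n := n) U
  have hd : (0 : ℝ) < (N.descFactorial (2 * n + 1) : ℝ) := by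
    have : 0 < N.descFactorial (2 * n + 1) := by
      rw [Nat.pos_iff_ne_zero]
      intro h
      rw [Nat.descFactorial_eq_zero_iff_lt] at h
      omega
    exact_mod_cast this
  have hdc : (N.descFactorial (2 * n + 1) : ℝ) = ((2 * n + 1).factorial : ℝ) * (N.choose (2 * n + 1) : ℝ) := by
    rw [Nat.descFactorial_eq_factorial_mul_choose]; push_cast; ring
  have hf : (0 : ℝ) < ((2 * n + 1).factorial : ℝ) := by exact_mod_cast Nat.factorial_pos _
  have hden : density (carousel n) U =
      ((2 * n + 1).factorial * ((copies (carousel n) U).card : ℝ)) / (N.descFactorial (2 * n + 1) : ℝ) := by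
    unfold density
    rw [hdc, mul_div_mul_left _ _ hf.ne']
  rw [hden, div_le_iff₀ hd]
  have h2 : (2 : ℝ) ^ (2 * n + 1) = 2 * 4 ^ n := by
    rw [pow_succ, pow_mul]; norm_num; ring
  have h3 : (0 : ℝ) < 2 ^ (2 * n + 1) := by positivity
  have h4 : ((1 / 4 : ℝ) ^ n +
      (3 / 2) ^ (2 * n + 1) * ((N : ℝ) ^ (2 * n + 1) / (N.descFactorial (2 * n + 1) : ℝ) - 1)) *
        (N.descFactorial (2 * n + 1) : ℝ) =
      (2 * (N.descFactorial (2 * n + 1) : ℝ) +
        3 ^ (2 * n + 1) * ((N : ℝ) ^ (2 * n + 1) - (N.descFactorial (2 * n + 1) : ℝ))) / 2 ^ (2 * n + 1) := by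
    have h5 : (1 / 4 : ℝ) ^ n = 2 / 2 ^ (2 * n + 1) := by
      rw [h2, one_div, inv_pow]
      field_simp
    rw [h5, div_pow]
    field_simp
  rw [h4, le_div_iff₀ h3]
  linarith

theorem tendsto_ratio (r : ℕ) :
    Tendsto (fun N : ℕ => (N : ℝ) ^ r / (N.descFactorial r : ℝ)) atTop (𝓝 1) := by
  have h1 := isEquivalent_descFactorial r
  have h2 := (Asymptotics.isEquivalent_iff_tendsto_one (by
    filter_upwards [eventually_gt_atTop 0] with N hN
    have : (0 : ℝ) < (N : ℝ) ^ r := by positivity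
    exact this.ne')).mp h1
  have h3 := h2.inv₀ one_ne_zero
  rw [inv_one] at h3
  refine h3.congr fun N => ?_
  simp only [Pi.div_apply, inv_div]

/-- **Upper bound.** -/
theorem limit_le {φ : ∀ k : ℕ, Tournament k → ℝ} (hφ : IsLimit φ) (n : ℕ) :
    φ (2 * n + 1) (carousel n) ≤ (1 / 4) ^ n := by
  obtain ⟨N, U, hN, h⟩ := hφ
  have h1 := h (2 * n + 1) (carousel n)
  have h2 : Tendsto (fun m => (1 / 4 : ℝ) ^ n +
      (3 / 2) ^ (2 * n + 1) * (((N m : ℕ) : ℝ) ^ (2 * n + 1) / ((N m).descFactorial (2 * n + 1) : ℝ) - 1))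
      atTop (𝓝 ((1 / 4) ^ n + (3 / 2) ^ (2 * n + 1) * (1 - 1))) := by
    refine tendsto_const_nhds.add (tendsto_const_nhds.mul ?_)
    exact ((tendsto_ratio (2 * n + 1)).comp hN.tendsto_atTop).sub tendsto_const_nhds
  rw [sub_self, mul_zero, add_zero] at h2
  refine le_of_tendsto_of_tendsto h1 h2 ?_
  filter_upwards [hN.tendsto_atTop.eventually_ge_atTop (2 * n + 1)] with m hm
  exact density_bound (U m) hm

end Pool.Agent.H65.Car
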